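import Pool.Agent.Q78.AF.E

set_option autoImplicit false

open MeasureTheory Real
open scoped ENNReal ComplexConjugate SchwartzMap

namespace Pool.Agent.Results.MP_dd244f_an.FrequenciesNearN

/-- the `n`-th power of the Beurling transform of a Schwartz function `f`: the Fourier multiplier
with symbol `(conj ξ / ξ) ^ n`, literal form -/
noncomputable def bp (n : ℕ) (f : SchwartzMap ℂ ℂ) (z : ℂ) : ℂ :=
  ∫ ξ : ℂ,
    Complex.exp (2 * (Real.pi : ℂ) * Complex.I * (((z.re * ξ.re + z.im * ξ.im : ℝ)) : ℂ)) *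
      ((starRingEnd ℂ ξ / ξ) ^ n *
        ∫ x : ℂ, Complex.exp (-(2 * (Real.pi : ℂ) * Complex.I *
          (((x.re * ξ.re + x.im * ξ.im : ℝ)) : ℂ))) * f x)

/-- `f` has angular frequency `m`: `f (r e^{iθ}) = e^{i m θ} f (r)` -/
def Freq (m : ℤ) (f : ℂ → ℂ) : Prop := ∀ a z : ℂ, ‖a‖ = 1 → f (a * z) = a ^ m * f z

/-- the constant of the starting result for one power -/
noncomputable def C (k : ℕ) : ℝ :=
  ((k : ℝ) + 1) / 2 * (((k : ℝ) + 1) / ((k : ℝ) - 1)) ^ (((k : ℝ) - 1) / 2)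

/-- the mean modulus of `w + w ^ 2 + ... + w ^ k` on the unit circle -/
noncomputable def L (k : ℕ) : ℝ := circleAverage (fun w => ‖∑ j ∈ Finset.Icc 1 k, w ^ j‖) 0 1

/-- the sum of the components with frequencies in `[n - k, n + k]` -/
noncomputable def band (n k : ℕ) (F : ℤ → SchwartzMap ℂ ℂ) : SchwartzMap ℂ ℂ :=
  ∑ m ∈ Finset.Icc ((n : ℤ) - k) (n + k), F m

/-- the constant `(1/q)_n / (1/p)_n` of the question -/
noncomputable def K (n : ℕ) (p : ℝ) : ℝ :=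
  (ascPochhammer ℝ n).eval (1 - 1 / p) / (ascPochhammer ℝ n).eval (1 / p)

open Pool.Agent.TH55.PowA in
lemma bp_eq (n : ℕ) (f : SchwartzMap ℂ ℂ) : bp n f = T (fun ξ => bs ξ ^ n) f := rfl

/-- **Powers of the Beurling transform on angular frequencies near `n`.** On the frequency `m` the
power `T ^ n` acts as `T ^ (m - n)` composed with the reflection. -/
theorem result :
    -- the constants
    (C 1 = 1 ∧ (∀ k : ℕ, 1 ≤ k → C k ≤ Real.exp 1 / 2 * (k + 1)) ∧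
      (∀ k : ℕ, L k ≤ Real.sqrt k) ∧
      ∀ n : ℕ, 1 ≤ n → ∀ p : ℝ, 2 ≤ p → (p - 1) * ((2 * (n : ℝ) + 1) / 3) ^ (1 - 2 / p) ≤ K n p) ∧
    -- the identity
    (∀ (n k : ℕ) (f : SchwartzMap ℂ ℂ),
      (Freq (n + k) f → ∀ z : ℂ, bp n f z = bp k f (conj z)) ∧
      (Freq (n - k) f → ∀ g : SchwartzMap ℂ ℂ, (∀ x : ℂ, g x = f (conj x)) →
        ∀ z : ℂ, bp n f z = bp k g z)) ∧
    -- frequency `n`
    (∀ (n : ℕ) (f : SchwartzMap ℂ ℂ), Freq n f →
      ∀ P : ℝ≥0∞, eLpNorm (bp n f) P volume = eLpNorm f P volume) ∧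
    -- one frequency
    (∀ p : ℝ, 2 ≤ p → ∀ n k : ℕ, 1 ≤ k → ∀ f : SchwartzMap ℂ ℂ,
      (Freq (n + k) f ∨ Freq (n - k) f) →
      eLpNorm (bp n f) (ENNReal.ofReal p) volume
        ≤ ENNReal.ofReal (C k * (p - 1)) * eLpNorm f (ENNReal.ofReal p) volume) ∧
    (∀ p : ℝ, 2 ≤ p → ∀ n : ℕ, 1 ≤ n → ∀ (m : ℤ) (f : SchwartzMap ℂ ℂ), Freq m f →
      (|m - n| ≤ 1 ∨ C (m - n).natAbs ≤ ((2 * (n : ℝ) + 1) / 3) ^ (1 - 2 / p)) →
      eLpNorm (bp n f) (ENNReal.ofReal p) volume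
        ≤ ENNReal.ofReal (K n p) * eLpNorm f (ENNReal.ofReal p) volume) ∧
    -- bands of frequencies
    (∀ p : ℝ, 2 ≤ p → ∀ (n k : ℕ) (F : ℤ → SchwartzMap ℂ ℂ), (∀ m, Freq m (F m)) →
      eLpNorm (bp n (band n k F)) (ENNReal.ofReal p) volume
        ≤ ENNReal.ofReal (1 + 2 * (C k * L k) * (p - 1)) *
          eLpNorm (band n k F) (ENNReal.ofReal p) volume) ∧
    (∀ p : ℝ, 2 < p → ∀ k : ℕ,
      (∀ n : ℕ, 1 ≤ n → 1 + 2 * (C k * L k) ≤ ((2 * (n : ℝ) + 1) / 3) ^ (1 - 2 / p) →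
        ∀ F : ℤ → SchwartzMap ℂ ℂ, (∀ m, Freq m (F m)) →
        eLpNorm (bp n (band n k F)) (ENNReal.ofReal p) volume
          ≤ ENNReal.ofReal (K n p) * eLpNorm (band n k F) (ENNReal.ofReal p) volume) ∧
      ∃ N : ℕ, 1 ≤ N ∧ ∀ n : ℕ, N ≤ n →
        1 + 2 * (C k * L k) ≤ ((2 * (n : ℝ) + 1) / 3) ^ (1 - 2 / p)) := by
  refine ⟨⟨Pool.Agent.TH55.PowA.Cn_one, fun k hk => Pool.Agent.TH55.PowA.Cn_le k hk,
    Q78.AF.Lk_le, fun n hn p hp => Q78.AF.poch n hn p hp⟩, ?_, ?_, ?_, ?_, ?_, ?_⟩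
  · intro n k f
    refine ⟨fun hf z => Q78.AF.refl_up n k hf z, fun hf g hg z => Q78.AF.refl_dn n k hf hg z⟩
  · intro n f hf P
    exact Q78.AF.center n hf P
  · intro p hp n k hk f hf
    rcases hf with hf | hf
    · exact Q78.AF.single p hp n k hk _ (Or.inl rfl) hf
    · exact Q78.AF.single p hp n k hk _ (Or.inr rfl) hf
  · intro p hp n hn m f hf h
    have hn1 : (1 : ℝ) ≤ n := by exact_mod_cast hn
    have hx : (1 : ℝ) ≤ ((2 * (n : ℝ) + 1) / 3) ^ (1 - 2 / p) := by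
      refine Real.one_le_rpow (by linarith) ?_
      have : 2 / p ≤ 1 := (div_le_one (by linarith)).2 hp
      linarith
    have hp0 : 0 ≤ p - 1 := by linarith
    have hK : (p - 1) * ((2 * (n : ℝ) + 1) / 3) ^ (1 - 2 / p) ≤ K n p := Q78.AF.poch n hn p hp
    refine Q78.AF.single_le p hp n m hf _ ?_ ?_
    · nlinarith
    · rcases h with h | h
      · exact Or.inl h
      · refine Or.inr ?_
        have h1 := mul_le_mul_of_nonneg_right h hp0
        have h2 : C (m - n).natAbs * (p - 1) ≤ K n p := by linarith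
        exact h2
  · intro p hp n k F hF
    exact Q78.AF.band p hp n k F hF
  · intro p hp k
    have hp0 : 0 ≤ p - 1 := by linarith
    refine ⟨fun n hn h F hF => ?_, ?_⟩
    · have hK : (p - 1) * ((2 * (n : ℝ) + 1) / 3) ^ (1 - 2 / p) ≤ K n p :=
        Q78.AF.poch n hn p hp.le
      refine Q78.AF.band_le p hp.le n k F hF _ ?_
      have h1 := mul_le_mul_of_nonneg_right h hp0
      have h2 : (1 + 2 * (C k * L k)) * (p - 1) ≤ K n p := by linarith
      exact h2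
    · have hs : 0 < 1 - 2 / p := by
        have : 2 / p < 1 := (div_lt_one (by linarith)).2 hp
        linarith
      have h0 : Filter.Tendsto (fun n : ℕ => (2 * (n : ℝ) + 1) / 3) Filter.atTop Filter.atTop := by
        refine Filter.Tendsto.atTop_div_const (by norm_num) ?_
        refine Filter.tendsto_atTop_add_const_right _ _ ?_
        exact Filter.Tendsto.const_mul_atTop (by norm_num) tendsto_natCast_atTop_atTop
      have h := (tendsto_rpow_atTop hs).comp h0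
      have h2 := h.eventually_ge_atTop (1 + 2 * (C k * L k))
      obtain ⟨N, hN⟩ := Filter.eventually_atTop.1 h2
      exact ⟨max 1 N, le_max_left _ _, fun n hn => hN n ((le_max_right _ _).trans hn)⟩

end Pool.Agent.Results.MP_dd244f_an.FrequenciesNearN
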