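import Pool.Agent.Q78.BB.Fin

/-!
# MP_dd244f_an: the Pochhammer bound on a single angular mode `m > n`, `m ≠ 2 n`

If `f` has the angular mode `b + 2 N` (`b ≥ 1`), then `T ^ N f z = (conj z / z) ^ N (f z + ∫_0^1 q(v) f(z / √v) dv / v)`
with an explicit kernel `q = q_{b,N}` (Jacobi polynomials). This operator is an isometry of `L²`, and its norm on
bounded functions is at most `1 + ∫_0^1 |q(v)| dv / v ≤ E N = exp (2 ∑_{j<N} 1/(2j+1))`, by the Cauchy-Schwarz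
inequality with the moments `∫ (1-v) v^(-3/4) q²`, `∫ (1-v) v^(-5/4) q²`. Interpolate (Riesz-Thorin) and compare the
factors of `E N ^ (1 - 2 / p)` with those of `(1/q)_N / (1/p)_N`. The modes `n < m < 2 n` are reduced to `N = m - n`,
`b = 2 n - m` by `T ^ n f z = T ^ (m - n) f (conj z)`.

Project BB of helper78 on the library BA of helper276; lemmas by helper53, helper79, helper129, helper149, helper151,
helper190, helper223.
-/

set_option autoImplicit false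

open MeasureTheory

namespace Pool.Agent.Results.MP_dd244f_an.ModesAboveNPochhammer

/-- The `n`-th power of the Beurling transform: the Fourier multiplier with symbol
`(conj ξ / ξ) ^ n`, written out with the Fourier kernel `exp(-2 π i x · ξ)`. -/
noncomputable def T (n : ℕ) (f : ℂ → ℂ) (z : ℂ) : ℂ :=
  ∫ ξ : ℂ,
    Complex.exp (2 * (Real.pi : ℂ) * Complex.I * (((z.re * ξ.re + z.im * ξ.im : ℝ)) : ℂ)) *
      ((starRingEnd ℂ ξ / ξ) ^ n *
        ∫ x : ℂ, Complex.exp (-(2 * (Real.pi : ℂ) * Complex.I *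
          (((x.re * ξ.re + x.im * ξ.im : ℝ)) : ℂ))) * f x)

/-- `f` has the angular mode `m`: `f (r e^{iθ}) = e^{i m θ} f (r)` -/
def Mode (m : ℤ) (f : ℂ → ℂ) : Prop := ∀ a z : ℂ, ‖a‖ = 1 → f (a * z) = a ^ m * f z

/-- The Pochhammer quotient `(1/q)_n / (1/p)_n`. -/
noncomputable def K (n : ℕ) (p : ℝ) : ℝ :=
  (ascPochhammer ℝ n).eval (1 - 1 / p) / (ascPochhammer ℝ n).eval (1 / p)

/-- the constant `exp (2 (1 + 1/3 + ... + 1/(2N-1)))` -/
noncomputable def E (N : ℕ) : ℝ := Real.exp (2 * ∑ j ∈ Finset.range N, 1 / (2 * (j : ℝ) + 1))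

/-- the smaller one of `n` and `m - n` -/
def N (n : ℕ) (m : ℤ) : ℕ := min n (m - n).toNat

/-- **Main result.** The inequality of the question on the angular modes `m > n`, `m ≠ 2 n`. -/
theorem result (n : ℕ) (hn : 1 ≤ n) (m : ℤ) (hm : (n : ℤ) < m) (h2 : m ≠ 2 * n) (f : SchwartzMap ℂ ℂ)
    (hf : Mode m f) :
    (∀ (z : ℂ) (B : ℝ), (∀ w : ℂ, ‖z‖ ≤ ‖w‖ → ‖f w‖ ≤ B) → ‖T n f z‖ ≤ E (N n m) * B) ∧
    ∀ p : ℝ, 2 ≤ p →
      (∀ R : ℝ, eLpNorm (T n f) (ENNReal.ofReal p) (volume.restrict {z : ℂ | R < ‖z‖})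
        ≤ ENNReal.ofReal (E (N n m) ^ (1 - 2 / p))
          * eLpNorm f (ENNReal.ofReal p) (volume.restrict {z : ℂ | R < ‖z‖})) ∧
      E (N n m) ^ (1 - 2 / p) ≤ K (N n m) p ∧ K (N n m) p ≤ K n p ∧
      eLpNorm (T n f) (ENNReal.ofReal p) (volume : Measure ℂ)
        ≤ ENNReal.ofReal (K n p) * eLpNorm f (ENNReal.ofReal p) (volume : Measure ℂ) := by
  obtain ⟨h3, h4⟩ := Q78.BB.Fin.modes n hn m hm h2 f hf
  refine ⟨h4, fun p hp => ?_⟩
  have hK : ∀ k : ℕ, K k p = Pool.Agent.Y282.RB.Cn p k := fun k => Pool.Agent.Q78.BB.poch_eq k p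
  have h5 : E (N n m) ^ (1 - 2 / p) ≤ K (N n m) p := by
    rw [hK]
    exact Pool.Agent.Q78.BB.eO_poch le_rfl hp
  have h6 : K (N n m) p ≤ K n p := by
    rw [hK, hK]
    exact Pool.Agent.Q78.BB.Cn_mono (min_le_left n _) hp
  refine ⟨fun R => h3 p hp R, h5, h6, ?_⟩
  have h7 := h3 p hp (-1)
  have hU : {z : ℂ | (-1 : ℝ) < ‖z‖} = Set.univ := by
    refine Set.eq_univ_of_forall fun z => ?_
    show (-1 : ℝ) < ‖z‖
    linarith [norm_nonneg z]
  rw [hU, Measure.restrict_univ] at h7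
  exact h7.trans (mul_le_mul_left (ENNReal.ofReal_le_ofReal (h5.trans h6)) _)

end Pool.Agent.Results.MP_dd244f_an.ModesAboveNPochhammer
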