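import Pool.Agent.Q299.FC.F
import Pool.Agent.TH55.PowE

set_option autoImplicit false

open MeasureTheory Set Real
open scoped ENNReal

namespace Pool.Agent.Results.MP_dd244f_an.PolynomialsInT

/-- `φ(T) f` for the Beurling transform `T` and a Schwartz function `f`: the Fourier multiplier
with symbol `φ (conj ξ / ξ)`, literal form; `φ = τ ^ k` gives the power `T ^ k`. -/
noncomputable def fc (φ : ℂ → ℂ) (f : SchwartzMap ℂ ℂ) (z : ℂ) : ℂ :=
  ∫ ξ : ℂ,
    Complex.exp (2 * (Real.pi : ℂ) * Complex.I * (((z.re * ξ.re + z.im * ξ.im : ℝ)) : ℂ)) *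
      (φ (starRingEnd ℂ ξ / ξ) *
        ∫ x : ℂ, Complex.exp (-(2 * (Real.pi : ℂ) * Complex.I *
          (((x.re * ξ.re + x.im * ξ.im : ℝ)) : ℂ))) * f x)

open Pool.Agent.Q299.FC Pool.Agent.TH55.PowA in
/-- **Polynomials in the Beurling transform**: (1) functions analytic in a larger disc, (2) linear
combinations of the first `n` powers, bounded by the mean modulus of the polynomial over the unit
circle. -/
theorem result (p : ℝ) (hp : 2 ≤ p) :
    (∀ R : ℝ, 1 < R → ∀ φ : ℂ → ℂ, DiffContOnCl ℂ φ (Metric.ball 0 R) →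
      ∀ f : SchwartzMap ℂ ℂ,
        eLpNorm (fc (fun τ => φ τ - φ 0) f) (ENNReal.ofReal p) volume
          ≤ ENNReal.ofReal ((p - 1) *
              (R / (R ^ 2 - 1) * circleAverage (fun w => ‖φ w - φ 0‖) 0 R)) *
            eLpNorm f (ENNReal.ofReal p) volume) ∧
    (∀ n : ℕ, 1 ≤ n → ∀ a : ℕ → ℂ,
      (∀ f : SchwartzMap ℂ ℂ,
        eLpNorm (fun z => ∑ k ∈ Finset.Icc 1 n, a k * fc (fun τ => τ ^ k) f z)
            (ENNReal.ofReal p) volume
          ≤ ENNReal.ofReal (((n : ℝ) + 1) / 2 *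
              (((n : ℝ) + 1) / ((n : ℝ) - 1)) ^ (((n : ℝ) - 1) / 2) * (p - 1) *
              circleAverage (fun w => ‖∑ k ∈ Finset.Icc 1 n, a k * w ^ k‖) 0 1) *
            eLpNorm f (ENNReal.ofReal p) volume) ∧
      circleAverage (fun w => ‖∑ k ∈ Finset.Icc 1 n, a k * w ^ k‖) 0 1
        ≤ Real.sqrt (∑ k ∈ Finset.Icc 1 n, ‖a k‖ ^ 2)) := by
  have hp1 : (1 : ℝ) ≤ p := by linarith
  have hp0 : 0 ≤ p - 1 := by linarith
  have hb := base p hp
  refine ⟨fun R hR φ hφ f => ?_, fun n hn a => ⟨fun f => ?_, ?_⟩⟩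
  · have h := disc_bound hp1 hb hR hφ f
    refine h.trans (le_of_eq ?_)
    rw [← mul_assoc, ← ENNReal.ofReal_mul (mul_nonneg (by
      have : 0 < R ^ 2 - 1 := by nlinarith
      have : 0 < R := by linarith
      positivity) (circleAverage_nonneg_of_nonneg fun w _ => norm_nonneg _)), mul_comm (p - 1)]
  · exact comb_bound hp1 hp0 hb n hn a f
  · exact mean_le_l2 a n

end Pool.Agent.Results.MP_dd244f_an.PolynomialsInT
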